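import Pool.Agent.J4.H98.FibL

/-!
# `Ω`-stable maps with centre shadowing: the periodic points are dense in the nonwandering set

`V n = ℝⁿ`, `DiffM n N r = Diff^r(N)` with the strong (Whitney) `C^r` topology
(`Pool/Agent/H718R2/G0.lean`); `Omega`, `OmegaStable`, `Per`: nonwandering set, `Ω`-stability, periodic
points (`Pool/Agent/TH80/OMS/Defs.lean`, `SymDefs.lean`); `CR F`: chain recurrent set
(`Pool/Agent/R774/OS2.lean`); `IsFlow n N ψ`: `ψ` is a smooth flow on `N`
(`Pool/Agent/TH290/CL/Flow.lean`); `OrbitMap F ψ θ`: `F` maps the orbits of `ψ` to orbits, preserving
their direction, `F (ψ_t z) = ψ_(θ z t) (F z)` (`Pool/Agent/J4/H98/OrbDefs.lean`).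

In `Pool/Agent/J4/H98/FibL.lean`:
* `CentreShadowing G ψ`: closed pseudo-orbits of `G` with small jumps are traced by closed pseudo-orbits
  whose jumps are small and along the orbits of `ψ`. By the theorem on central shadowing (Kryzhevich,
  Tikhomirov) all dynamically coherent partially hyperbolic diffeomorphisms whose centre leaves are the
  orbits of `ψ` have this property; this is not used here. Two large classes for which it is proved
  here are in part 2 of the theorem.
* `FlowShadowing ψ`: closed pseudo-orbits of the flow `ψ` with small jumps are traced by closed orbits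
  (all Anosov flows).

By helper85:
* `Circ ψ F ρ π f` (`Pool/Agent/J4/H85/IS/Bundle.lean`): `π : N → B` is the projection of a principal
  circle bundle (`ψ` is a free action of `ℝ/ℤ`, the fibres of `π` are its orbits), `F` covers `f`, that
  is `π ∘ F = f ∘ π`, and maps the fibres preserving their orientation, with the derivative `ρ > 0`;
* `PeriodicShadowing f` (`Pool/Agent/J4/H85/IS/Track.lean`): every periodic pseudo-orbit of `f` with
  small jumps and of any period `M` is traced by the orbit of a point with `f^M c = c` (all Anosov
  diffeomorphisms, and all `f ∈ U₃`);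
* `AttPer F ρ`, `RepPer F ρ` (`Pool/Agent/J4/H85/IS/Main.lean`): the periodic points which are attracting,
  respectively repelling, along their fibre (the derivative along the fibre over the period is `< 1`,
  respectively `> 1`). Their indices, as hyperbolic periodic points over the same periodic point of `f`,
  differ by one.

`ChainTo F x y` (`Pool/Agent/J4/H98/FibJ.lean`): for every neighbourhood of the diagonal there is a
pseudo-orbit of `F` from `x` to `y` with jumps in it.

Proof. For small `s` the maps `ψ_s ∘ F` are `Ω`-stable, and their periodic points are hyperbolic (this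
is proved in the starting library, project CO, helper504 and others). A chain of `F` which returns to
its first point is traced by a closed chain `w` with small jumps along the orbits of `ψ`. The orbit of
`w 0` under `ψ_s ∘ F` stays on the orbits of the `w j`; for `s > 0` it is ahead of them, for `s < 0`
behind, so that `w 0` is periodic for some `ψ_s ∘ F` with a small `s`. Thus `CR(ψ_s ∘ F)` is the closure
of the set of the periodic points for all small `s` in a residual set, and `Ω`-stability carries the
density of the periodic points to `F`. In a circle bundle, a chain class which contains `P` attracting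
and `Q` repelling along the fibre gives return maps with two fixed points at an arbitrarily small
distance, against the uniform separation of the periodic points (`Pool/Agent/J4/H98/OrbE.lean`). No closing
lemma is used, and no perturbation other than `ψ_s ∘ F`.

With `IndexSeparation` (helper85), in the case of circle bundles and for `f` expansive on the closure of
its periodic points, `Ω(F)` is the disjoint union of the closures of `AttPer F ρ` and of `RepPer F ρ`.

The starting file `MP_4a0782_an/CircleExtensions` has, for circle bundles and `f` with the closing
property, the density of the periodic points in `Ω(F)` (and their uniform separation in the fibres). New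
here are the discretised flows, the statement on the chain recurrent sets of `ψ_s ∘ F`, and the
separation of the two types of periodic points by the chain recurrence classes.
-/

set_option autoImplicit false

open scoped Manifold ContDiff Topology
open Set Filter

universe u v

namespace Pool.Agent.Results.MP_814647_an.CentreShadowing

open Pool.Agent.H718R2.G Pool.Agent.TH80.OMS Pool.Agent.R774.OS Pool.Agent.J4.H98.Fib
open Pool.Agent.J4.H98.Orb (OrbitMap)
open Pool.Agent.TH290.CL (IsFlow)
open Pool.Agent.J4.H85.IS (Circ AttPer RepPer PeriodicShadowing)

/-- `F` maps the orbits of `ψ` to orbits, preserving their direction, and the maps `ψ_s ∘ F` with small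
`s` have the centre shadowing property. -/
def CentreShadowed {N : Type u} [TopologicalSpace N] (F : N → N) (ψ : ℝ → N → N) : Prop :=
  (∃ θ : N → ℝ → ℝ, OrbitMap F ψ θ) ∧
    ∃ κ : ℝ, 0 < κ ∧ ∀ s : ℝ, |s| < κ → CentreShadowing (fun y => ψ s (F y)) ψ

/-- `F y = ψ_(τ y) y` with a continuous function `τ > 0` and a flow `ψ` with the shadowing property (a
discretized flow). -/
def Discretized {N : Type u} [TopologicalSpace N] (F : N → N) (ψ : ℝ → N → N) : Prop :=
  FlowShadowing ψ ∧ ∃ τ : N → ℝ, Continuous τ ∧ (∀ y, 0 < τ y) ∧ ∀ y, F y = ψ (τ y) y

/-- The periodic points of `F` are dense in its nonwandering set, and for some `ε > 0` and all `s` in a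
residual set with `|s| < ε` the chain recurrent set of `ψ_s ∘ F` is the closure of the set of its
periodic points. -/
def PeriodicDense {N : Type u} [TopologicalSpace N] (F : N → N) (ψ : ℝ → N → N) : Prop :=
  Omega F = closure (Per F) ∧ ∃ ε : ℝ, 0 < ε ∧ ∀ᶠ s in residual ℝ, |s| < ε →
    CR (fun y => ψ s (F y)) = closure (Per (fun y => ψ s (F y)))

/-- There are periodic points of `F` of both types over every periodic point of `f`, but no chain
recurrence class of `F` contains periodic points of both types; if `N` is connected, some point is not
chain recurrent. -/
def TypesSeparated {N : Type u} [TopologicalSpace N] {B : Type v} (F : N → N) (ρ : N → ℝ)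
    (π : N → B) (f : B → B) : Prop :=
  (∀ c ∈ Per f, (∃ P ∈ AttPer F ρ, π P = c) ∧ ∃ Q ∈ RepPer F ρ, π Q = c) ∧
    (∀ P ∈ AttPer F ρ, ∀ Q ∈ RepPer F ρ, ¬ (ChainTo F P Q ∧ ChainTo F Q P)) ∧
    (ConnectedSpace N → CR F ≠ univ)

/-- Let `N` be a closed manifold, `1 ≤ r ≤ ∞`, let `ψ` be a smooth flow on `N` and let
`F ∈ Diff^r(N)` be `Ω`-stable.
1. If `F` maps the orbits of `ψ` to orbits, with centre shadowing, then the periodic points of `F` are
   dense in its nonwandering set, and the chain recurrent set of `ψ_s ∘ F` is the closure of the set of
   its periodic points, for all small `s` in a residual set.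
2. The hypothesis in 1 holds for all maps `F y = ψ_(τ y) y`, `τ > 0`, of a flow `ψ` with shadowing (for
   instance an Anosov flow), and for all circle-fibred `F` over a map `f` with periodic shadowing (for
   instance over an Anosov diffeomorphism).
3. Let `F` be circle-fibred over a map `f` with periodic shadowing. Over every periodic point of `f`
   there are periodic points of `F` of both types (attracting and repelling along the fibre), but no
   chain recurrence class of `F` contains points of both types. If `N` is connected, `F` has points
   which are not chain recurrent (and is not transitive). -/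
theorem result (n : ℕ) (N : Type u) [TopologicalSpace N] [T2Space N] [CompactSpace N]
    [ChartedSpace (V n) N] [IsManifold (𝓡 n) ∞ N] (r : ℕ∞) (hr : 1 ≤ r) (F : DiffM n N r)
    (hF : OmegaStable n N r F) (ψ : ℝ → N → N) (hψ : IsFlow n N ψ) :
    (CentreShadowed (F : N → N) ψ → PeriodicDense (F : N → N) ψ) ∧
      (Discretized (F : N → N) ψ → CentreShadowed (F : N → N) ψ) ∧
      ∀ (B : Type v) [MetricSpace B] (ρ : N → ℝ) (π : N → B) (f : B → B),
        Circ ψ (F : N → N) ρ π f → PeriodicShadowing f →
          CentreShadowed (F : N → N) ψ ∧ TypesSeparated (F : N → N) ρ π f := by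
  refine ⟨fun ⟨⟨θ, hθ⟩, hcs⟩ => ⟨dense_cs r hr F hF hψ hθ hcs, generic_cs r hr F hF hψ hθ hcs⟩,
    fun ⟨hS, τ, hτ, hpos, hFτ⟩ => ⟨⟨_, disc_orbit hψ F.injective hτ hFτ⟩,
      disc_cs hψ hS hτ hpos hFτ⟩, fun B _ ρ π f hC hS => ⟨⟨⟨_, circ_orbit hC⟩, 1, one_pos,
      fun s _ => circ_cs hψ hC hS s⟩, fun c hc => over_per hr F hF hψ hC hc,
      fun P hP Q hQ => att_rep hr F hF hψ hC hS hP hQ, fun _ => ?_⟩⟩
  exact not_transitive r hr F hF hψ (circ_orbit hC) (circ_bundle hC) hC.semi (perShadow hS)

end Pool.Agent.Results.MP_814647_an.CentreShadowing
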