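import Pool.Agent.J4.H85.IS.Final

/-!
# `Ω`-stable diffeomorphisms with circle fibres: separation of the indices, all classes `C^r`

`N` is a closed manifold, `1 ≤ r ≤ ∞`, and `F ∈ Diff^r(N)` is `Ω`-stable (`DiffM`, `OmegaStable`, `Per`:
`Pool/Agent/H718R2/G0.lean`, `Pool/Agent/TH80/OMS/Defs.lean`, `SymDefs.lean`; `IsFlow`:
`Pool/Agent/TH290/CL/Flow.lean`). `F` covers a map `f` of a compact metric space `B`, with circle fibres
and arbitrary orientation preserving fibre maps (`Circ ψ F ρ π f`, `Pool/Agent/J4/H85/IS/Bundle.lean`):
`ψ` is a free action of `ℝ/ℤ`, the fibres of the continuous surjection `π : N → B` are its orbits,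
`π ∘ F = f ∘ π`, and `F (ψ_t y) = ψ_τ (F y)` with `τ = ∫_0^t ρ(ψ_u y) du`, where `ρ > 0` is continuous
(the derivative of `F` along the fibres).

The hypotheses on `f` are satisfied by all diffeomorphisms of closed manifolds which satisfy Axiom A and
the no-cycle condition, for instance by all Anosov diffeomorphisms:
* `PeriodicShadowing f` (`Pool/Agent/J4/H85/IS/Track.lean`): for every `ε > 0` there is `η > 0` such that
  every periodic `η`-pseudo-orbit of period `M` is `ε`-shadowed by the orbit of a point `c`, `f^M c = c`;
* `ExpansiveOnPer f` (`Main.lean`): for some `e > 0`, two different full orbits of `f` in the closure of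
  the set of the periodic points have a distance more than `e` at some time.

`AttPer F ρ` and `RepPer F ρ` (`Main.lean`) are the sets of the periodic points of `F` which are
attracting, respectively repelling, along the fibres (`F^k p = p` and the derivative of `F^k` along the
fibre is less, respectively greater, than `1`).

`CentreShadowing` (in this folder) proves `Ω(F) = closure (Per F)` for these `F`; together with the
present result, `Ω(F)` is the disjoint union of the two closures.

For `r = 1` the separation of the closures of the periodic points of different indices is one of the
main steps of the proof of the stability conjecture (Mañé); it uses `C¹` closing lemmas there. Here only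
the hyperbolicity of the periodic points of the maps near `F` is used (proved in the starting library,
project CO, helper504 and others), for all `r`. Idea of the proof: let `p` be attracting and `q` repelling
along the fibres, very close, and of period `K`. The periodic pseudo-orbits of `f` which follow the orbit
of `π p` for `m` periods and the orbit of `π q` for `l` periods are shadowed by periodic orbits of `f`. For
each of them, consider the level `s = L(t)` at which the point `t` of the fibre is a periodic point of
`ψ_s ∘ F`: `L` has no critical points with small values. The levels `u`, `v` over `π p` and `π q` cross at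
`0`, one going up and the other one down. For a suitable crossing of `u` and `v`, the level `L` of the words
with `m` fixed and `l → ∞`, or with `l` fixed and `m → ∞`, would have a critical point with a small value.
-/

set_option autoImplicit false

open scoped Manifold ContDiff Topology
open Set

universe u v

namespace Pool.Agent.Results.MP_814647_an.IndexSeparation

open Pool.Agent.H718R2.G Pool.Agent.TH80.OMS Pool.Agent.TH290.CL Pool.Agent.J4.H85.IS

/-- Let `N` be a closed manifold, `1 ≤ r ≤ ∞`, and let `F ∈ Diff^r(N)` be `Ω`-stable and cover the map
`f` of the compact metric space `B`, with circle fibres. If `f` has the periodic shadowing property and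
is expansive on the closure of its periodic points (for instance, if `f` is Anosov, or `f ∈ U₃`), then:
1. all periodic points of `F` are attracting or repelling along the fibres;
2. the closure of the set of the attracting ones is disjoint from the closure of the set of the
   repelling ones;
3. `NoIndexCycles ψ F ρ`: there are a neighbourhood `W` of the diagonal and `η > 0` such that no
   periodic `W`-pseudo-orbit of `F` is `W`-close, at some times, to an attracting periodic point of
   some `ψ_s ∘ F`, `|s| < η`, and to a repelling periodic point of some `ψ_s' ∘ F`, `|s'| < η`. (So
   there are no cycles between the two closures, and no chain recurrence class meets both of them.) -/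
theorem result (n : ℕ) (N : Type u) [TopologicalSpace N] [T2Space N] [CompactSpace N]
    [ChartedSpace (V n) N] [IsManifold (𝓡 n) ∞ N] (B : Type v) [MetricSpace B] [CompactSpace B]
    (r : ℕ∞) (hr : 1 ≤ r) (F : DiffM n N r) (hF : OmegaStable n N r F) (ψ : ℝ → N → N)
    (hψ : IsFlow n N ψ) (ρ : N → ℝ) (π : N → B) (f : B → B) (C : Circ ψ (F : N → N) ρ π f)
    (hS : PeriodicShadowing f) (hX : ExpansiveOnPer f) :
    Per (F : N → N) = AttPer (F : N → N) ρ ∪ RepPer (F : N → N) ρ ∧
    Disjoint (closure (AttPer (F : N → N) ρ)) (closure (RepPer (F : N → N) ρ)) ∧
    NoIndexCycles ψ (F : N → N) ρ :=
  ⟨per_eq hr hF hψ C, index_separation hr hF hψ C hX hS, noIndexCycles hr hF hψ C hX hS⟩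

end Pool.Agent.Results.MP_814647_an.IndexSeparation
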