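import Pool.Agent.J4.H98.SP.Proj

/-!
# `Ω`-stable diffeomorphisms with circle fibres: spectral decomposition and absence of cycles, all `C^r`

`N` is a closed manifold, `1 ≤ r ≤ ∞`, and `F ∈ Diff^r(N)` is `Ω`-stable (`V n = ℝⁿ`, `DiffM n N r =
Diff^r(N)` with the strong topology `strongTop`: `Pool/Agent/H718R2/G0.lean`; `Omega`, `OmegaStable`,
`Per`: `Pool/Agent/TH80/OMS/Defs.lean`, `SymDefs.lean`; `CR`: chain recurrent set,
`Pool/Agent/R774/OS2.lean`; `IsFlow`: smooth flow, `Pool/Agent/TH290/CL/Flow.lean`; `ChainTo G x y`: for
every neighbourhood of the diagonal there is a pseudo-orbit from `x` to `y`,
`Pool/Agent/J4/H98/FibJ.lean`).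

The class of maps is the one of `IndexSeparation` (helper85, in this folder): `F` covers a map `f` of a
compact metric space `B`, with circle fibres and arbitrary orientation preserving fibre maps
(`Circ ψ F ρ π f`, `Pool/Agent/J4/H85/IS/Bundle.lean`): `ψ` is a free action of `ℝ/ℤ`, the fibres of the
continuous surjection `π : N → B` are its orbits, `π ∘ F = f ∘ π`, and `ρ > 0` is the derivative of `F`
along the fibres. The map `f` has the periodic shadowing property (`PeriodicShadowing f`,
`Pool/Agent/J4/H85/IS/Track.lean`: periodic pseudo-orbits with small jumps are traced by orbits with the
same period) and is expansive on the closure of its periodic points (`ExpansiveOnPer f`,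
`Pool/Agent/J4/H85/IS/Main.lean`). This is the case for all Anosov diffeomorphisms, and for all
diffeomorphisms with Axiom A and without cycles (not used here). `AttPer G ρ` and `RepPer G ρ` (`Main.lean`)
are the sets of the periodic points of `G` which are attracting, respectively repelling, along the fibres.

Definitions of the present result (`Pool/Agent/J4/H98/SP/`):
* `Basic G S` (`Defs.lean`): `S` is closed, not empty, `G(S) = S`, and `G` is topologically transitive
  on `S`;
* `CyclicMixing G S m T` (`MixDefs.lean`): `S` is the union of the closed sets `T j`, which are pairwise
  disjoint for `j < m`, with `T (j + m) = T j` and `G (T j) = T (j + 1)`, and `G^m` is topologically mixing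
  on `T j`;
* `SpectralNoCycles G ρ Λ` (`Mfd.lean`), for `Λ : Fin k → Set N`: `Ω(G)` is the disjoint union of the
  sets `Λ a`, all of them `Basic`; each `Λ a` is the closure of its periodic points in `AttPer G ρ`, or
  the closure of its periodic points in `RepPer G ρ`; each `Λ a` has a cyclic decomposition as in
  `CyclicMixing`; any two points of `Λ a` are joined by pseudo-orbits; every chain recurrence class of
  `G` contains exactly one `Λ a`: for every chain recurrent `x` there is exactly one `a` such that `x` is
  joined to all `y ∈ Λ a` by pseudo-orbits in both directions; and `G` has a filtration adapted to the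
  `Λ a` (`Filtered`): open sets `∅ = U 0 ⊆ ... ⊆ U k = N` with `G (closure (U j)) ⊆ U j`, such that the
  chain recurrent points in `U (j + 1) \ U j` form one chain recurrence class;
* `Pieces G k` (`Final.lean`): `Ω(G)` is the disjoint union of `k` `Basic` sets with dense periodic points;
* `ProjectOnto F ρ π f Λ` (`Proj.lean`): every `Basic` set `S` of `f` with `S ⊆ closure (Per f)` is
  contained in `π (Λ a)` for some `Λ a` of attracting type, and in `π (Λ a)` for some `Λ a` of repelling
  type.

Proof. The maps `ψ_s ∘ F` with small `s` are `Ω`-stable, and the periodic points of maps near `F` are
hyperbolic (both proved in the starting library, project CO, helper504 and others). For a periodic orbit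
of `f` of period `K` and `t ∈ ℝ` let `L(t)` be the level `s` at which the point `t` of the fibre is
periodic for `ψ_s ∘ F`: `L` has no critical points with small values. An attracting periodic point `P` of
`F` lies on an increasing branch of `L`; let its trap be the part of the fibre between the next decreasing
branches on its two sides. By the theorem of helper85 on the separation of the two types at different
levels, the increasing branches over two near fibres lie in each other's traps if they come close
somewhere. Let `P` and `P'` be attracting periodic points (also of `ψ_s ∘ F` and of `ψ_s' ∘ F`, with small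
`s`, `s'`) which are near. For the periodic orbit of `f` which follows the orbit of `π P` for `m` periods
and that of `π P'` for `l` periods the return map over the fibre maps the trap of `P` into the branch of
`P`, if `m` and `l` are large; hence there is an attracting periodic point, whose orbit comes as close as
one wants to `P` and to `P'` (more precisely, to their continuations at the level `0`). So near attracting
periodic points of `F` are joined by attracting periodic orbits. Hence there are finitely many classes, and
their closures are transitive and far from each other. A periodic pseudo-orbit of `F` between points of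
two classes would be traced by a periodic orbit of `f` over which there are points of some `ψ_s ∘ F` with
small `s`, near the two classes; their continuation at the level `0` is one periodic orbit of `F`, which
belongs to both of them. The lengths `αK + βK'` of the words (`K`, `K'`: periods of `P` and `P'`), with all
large `α` and `β`, give the mixing decomposition (Bowen's argument). For the repelling type use `F⁻¹`; the two types are separated by
`IndexSeparation`. Every chain recurrent point is joined by pseudo-orbits in both directions to a periodic
point of a map `ψ_s ∘ F` with `s` as small as one wants, and this one to its continuation at the level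
`0`, through the continuations in between. The density of the periodic points is `CentreShadowing`, in
this folder. No closing lemma is used, and no perturbation other than `ψ_s ∘ F`.

With helpers 14, 16, 30, 36, 40, 62 and others (`Dec.lean`, `Cls.lean`, `Rev.lean`, `Uniq.lean`: helper14;
`Words.lean`: helper30, after helper85; `Br.lean`, `Ph.lean`, `Walk.lean`, `Crp.lean`, `Trans.lean`:
helper36; `N1.lean`: helper40; `Inv.lean`, `Inv2.lean`, `Inv3.lean`: helper62; `Filt.lean`: helper18;
`MixA.lean`: helper30; `MixB.lean`: helper14; `Mult.lean`: helper16).
-/

set_option autoImplicit false

open scoped Manifold ContDiff Topology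
open Set Filter

universe u v

namespace Pool.Agent.Results.MP_814647_an.SpectralDecomposition

open Pool.Agent.H718R2.G Pool.Agent.TH80.OMS Pool.Agent.J4.H98.SP
open Pool.Agent.R774.OS (CR)
open Pool.Agent.TH290.CL (IsFlow)
open Pool.Agent.J4.H85.IS (Circ PeriodicShadowing ExpansiveOnPer)

/-- For all small `s` the map `ψ_s ∘ F` has a spectral decomposition without cycles with `k` pieces; for
all small `s` in a residual set its chain recurrent set is its nonwandering set, so that its pieces are
its chain recurrence classes. -/
def FamilyDecomposed {N : Type u} [TopologicalSpace N] (ψ : ℝ → N → N) (F : N → N) (ρ : N → ℝ)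
    (k : ℕ) : Prop :=
  ∃ ε : ℝ, 0 < ε ∧
    (∀ s : ℝ, |s| < ε → ∃ Λ : Fin k → Set N, SpectralNoCycles (fun y => ψ s (F y)) ρ Λ) ∧
    ∀ᶠ s in residual ℝ, |s| < ε → CR (fun y => ψ s (F y)) = Omega (fun y => ψ s (F y))

/-- For all `G` in a neighbourhood of `F` in `Diff^r(N)` the nonwandering set is the disjoint union of `k`
closed invariant transitive sets with dense periodic points. -/
def NearbyDecomposed (n : ℕ) (N : Type u) [TopologicalSpace N] [ChartedSpace (V n) N] (r : ℕ∞)
    (F : DiffM n N r) (k : ℕ) : Prop :=
  ∃ U : Set (DiffM n N r), IsOpen[strongTop n N r] U ∧ F ∈ U ∧ ∀ G ∈ U, Pieces (G : N → N) k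

/-- Let `N` be a closed manifold, `1 ≤ r ≤ ∞`, and let `F ∈ Diff^r(N)` be `Ω`-stable and cover the map
`f` of the compact metric space `B`, with circle fibres. If `f` has the periodic shadowing property and
is expansive on the closure of its periodic points (for instance, if `f` is Anosov, or `f ∈ U₃`), then
there are `k` and sets `Λ a`, `a < k`, such that:
1. `Ω(F)` is the disjoint union of the sets `Λ a`; they are closed, invariant and topologically
   transitive, and each of them is the closure of its periodic points which are attracting along the
   fibres, or of its periodic points which are repelling along the fibres; each `Λ a` is the disjoint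
   union of finitely many closed sets which `F` permutes cyclically, and on which the return map of `F`
   is topologically mixing; every chain recurrence class of `F` contains exactly one `Λ a` (there are no
   cycles between them, and `F` has `k` chain recurrence classes), and `F` has an adapted filtration;
2. every transitive piece of `f` is contained in the projection of some `Λ a` of attracting type, and of
   some `Λ a` of repelling type;
3. for all small `s` statement 1 holds for `ψ_s ∘ F`, with the same number `k`; for all small `s` in a
   residual set the chain recurrence classes of `ψ_s ∘ F` are exactly its pieces;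
4. for all `G` near `F` in `Diff^r(N)`, `Ω(G)` is the disjoint union of `k` closed invariant transitive
   sets with dense periodic points. -/
theorem result (n : ℕ) (N : Type u) [TopologicalSpace N] [T2Space N] [CompactSpace N]
    [ChartedSpace (V n) N] [IsManifold (𝓡 n) ∞ N] (B : Type v) [MetricSpace B] [CompactSpace B]
    (r : ℕ∞) (hr : 1 ≤ r) (F : DiffM n N r) (hF : OmegaStable n N r F) (ψ : ℝ → N → N)
    (hψ : IsFlow n N ψ) (ρ : N → ℝ) (π : N → B) (f : B → B) (C : Circ ψ (F : N → N) ρ π f)
    (hS : PeriodicShadowing f) (hX : ExpansiveOnPer f) :
    ∃ (k : ℕ) (Λ : Fin k → Set N), SpectralNoCycles (F : N → N) ρ Λ ∧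
      ProjectOnto (F : N → N) ρ π f Λ ∧ FamilyDecomposed ψ (F : N → N) ρ k ∧
      NearbyDecomposed n N r F k := by
  obtain ⟨k, Λ, h1, h2, h3⟩ := main hr hF hψ C hX hS
  exact ⟨k, Λ, h1, project hr hF hψ C hX hS h1, h2, h3⟩

end Pool.Agent.Results.MP_814647_an.SpectralDecomposition
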