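import Pool.Agent.J4.H98.FH.Main

/-!
# `Ω`-stable diffeomorphisms with circle fibres: topological hyperbolicity of the nonwandering set

`N` is a closed manifold, `1 ≤ r ≤ ∞`, and `F ∈ Diff^r(N)` is `Ω`-stable (`V n = ℝⁿ`, `DiffM n N r =
Diff^r(N)` with the strong topology `strongTop`: `Pool/Agent/H718R2/G0.lean`; `Omega`, `OmegaStable`:
`Pool/Agent/TH80/OMS/Defs.lean`; `IsFlow`: smooth flow, `Pool/Agent/TH290/CL/Flow.lean`).

The class of maps is the one of `IndexSeparation` and `SpectralDecomposition` (in this folder): `F` covers
a map `f` of a compact metric space `B`, with circle fibres and arbitrary orientation preserving fibre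
maps (`Circ ψ F ρ π f`, `Pool/Agent/J4/H85/IS/Bundle.lean`): `ψ` is a free action of `ℝ/ℤ`, the fibres of
the continuous surjection `π : N → B` are its orbits, `π ∘ F = f ∘ π`, and `ρ > 0` is the derivative of
`F` along the fibres. The map `f` has the periodic shadowing property (`PeriodicShadowing f`,
`Pool/Agent/J4/H85/IS/Track.lean`) and is expansive on the closure of its periodic points
(`ExpansiveOnPer f`, `Pool/Agent/J4/H85/IS/Main.lean`). This is the case for all Anosov diffeomorphisms,
and for all diffeomorphisms with Axiom A and without cycles (not used here).

Definitions of the present result (`Pool/Agent/J4/H98/FH/Topo.lean`; neighbourhoods of the diagonal take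
the place of a metric):
* `ExpansiveOn G Λ`: there is a neighbourhood `W` of the diagonal such that two full orbits of `G` in `Λ`
  whose points at all times `n ∈ ℤ` are `W`-close are equal;
* `ShadowingOn G Λ`: for every neighbourhood `V` of the diagonal there is a neighbourhood `W` of the
  diagonal such that every bi-infinite pseudo-orbit in `Λ` with jumps in `W` is `V`-traced by a full orbit
  of `G` in `Λ`, and every periodic pseudo-orbit in `Λ` with jumps in `W` is `V`-traced by the orbit of a
  point of `Λ` with the same period.

Expansivity and the shadowing property on `Ω(G)` are the topological content of the hyperbolicity of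
`Ω(G)`: homeomorphisms with both properties are called topologically Anosov; they have local product
structure and Markov partitions (not used here).

Proof. The maps `F_s = ψ_s ∘ F`, `|s| < κ`, are `Ω`-conjugate to `F`; let `h_s : Ω(F) → Ω(F_s) ⊆ N` be the
conjugacies. No closeness to the identity is known, and the `h_s` need not depend continuously on `s`. The
maps `π ∘ h_s : Ω(F) → B` are semiconjugacies from `F` to `f`; since `f` is expansive on the closure of
its periodic points, two of them which are near are equal, so that there are only countably many of them.
Hence there is an uncountable set `S` of levels with `π ∘ h_s = θ` for all `s ∈ S`. The space of continuous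
maps `Ω(F) → N` is separable, so that some `s ∈ S` is a limit from both sides of levels `a < s < b` in `S`
with `h_a` and `h_b` uniformly near `h_s`. The periodic points are dense in `Ω(F)` (`CentreShadowing`). For
a periodic point `x` of `F` let `E(x)` be the small angle from `h_a(x)` to `h_b(x)`, in the fibre over
`θ(x)`. Then `E(F x)` is the image of `E(x)` under the fibre map plus `b - a > 0`; so `E` cannot change its
sign along a periodic orbit, and `|E|` is bounded from below. By density this holds on `Ω(F)`. Let now
`(x_i)` be a periodic pseudo-orbit in `Ω(F)` with small jumps; its image under `θ` is traced by a periodic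
orbit of `f`. Over this orbit the intervals between the (transported) points `h_a(x_i)` and `h_b(x_i)` are
mapped by `F_s` strictly into each other, or strictly over each other; hence there is a periodic point of
`F_s` whose orbit stays in these intervals, that is, near the points `h_s(x_i)`. The conjugacy `h_s` takes
it back to a periodic point of `F` which traces `(x_i)`. So `F` has the periodic shadowing property on
`Ω(F)`, and this gives the shadowing property since the periodic points are dense. Expansivity: two
different periodic points over the same point of `B` have a distance bounded from below (they are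
hyperbolic, also for all `F_s` with small `s`, and attracting ones move up and repelling ones down when
`s` grows); for two full orbits in `Ω(F)` which are near at all times one finds two periodic orbits which
are near at all times by tracing. All `G` near `F` are `Ω`-conjugate to `F`.

With helpers 12, 19, 35, 36, 42, 43, 78 (`BASE.lean`: helper12, `EXP.lean`: helper19, `PEX.lean`:
helper35, `GAP.lean`: helper36, `PairC.lean`: helper42, `ONE.lean`, `TWO.lean`: helper43, `FULL.lean`:
helper78).
-/

set_option autoImplicit false

open scoped Manifold ContDiff Topology
open Set Filter

universe u v

namespace Pool.Agent.Results.MP_814647_an.TopologicalHyperbolicity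

open Pool.Agent.H718R2.G Pool.Agent.TH80.OMS Pool.Agent.J4.H98.FH
open Pool.Agent.TH290.CL (IsFlow)
open Pool.Agent.J4.H85.IS (Circ PeriodicShadowing ExpansiveOnPer)

/-- Let `N` be a closed manifold, `1 ≤ r ≤ ∞`, and let `F ∈ Diff^r(N)` be `Ω`-stable and cover the map
`f` of the compact metric space `B`, with circle fibres. If `f` has the periodic shadowing property and
is expansive on the closure of its periodic points (for instance, if `f` is Anosov, or satisfies Axiom A
and has no cycles), then there is a neighbourhood `U` of `F` in `Diff^r(N)` such that every `G ∈ U` is
expansive and has the shadowing property on its nonwandering set. -/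
theorem result (n : ℕ) (N : Type u) [TopologicalSpace N] [T2Space N] [CompactSpace N]
    [ChartedSpace (V n) N] [IsManifold (𝓡 n) ∞ N] (B : Type v) [MetricSpace B] [CompactSpace B]
    (r : ℕ∞) (hr : 1 ≤ r) (F : DiffM n N r) (hF : OmegaStable n N r F) (ψ : ℝ → N → N)
    (hψ : IsFlow n N ψ) (ρ : N → ℝ) (π : N → B) (f : B → B) (C : Circ ψ (F : N → N) ρ π f)
    (hS : PeriodicShadowing f) (hX : ExpansiveOnPer f) :
    ∃ U : Set (DiffM n N r), IsOpen[strongTop n N r] U ∧ F ∈ U ∧
      ∀ G ∈ U, ExpansiveOn (G : N → N) (Omega (G : N → N)) ∧
        ShadowingOn (G : N → N) (Omega (G : N → N)) :=
  main hr hF hψ C hX hS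

end Pool.Agent.Results.MP_814647_an.TopologicalHyperbolicity
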